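import Pool.Agent.helper90.KS.Spec

/-!
# MP_26dbae_co: FB, the bound for the number of edges of an abstract pair graph
-/

set_option autoImplicit false

open scoped BigOperators

namespace Pool.Agent.KS

open Pool.Agent.helper23.TH

noncomputable section

open Classical

/-- the numerical part -/
theorem FB_num (s : ℕ) (hs : 3 ≤ s) (N D S Δ K B c : ℝ) (hN : 1 ≤ N) (hD : 0 < D) (hS : 0 ≤ S)
    (hΔ : 0 ≤ Δ) (hB : 0 ≤ B) (hc : 0 ≤ c) (hK : 0 < K)
    (h1 : D ^ 2 ≤ c * N * S) (h2 : S ^ (2 * s) ≤ N ^ (3 * s - 2) * (B * (N * Δ ^ (2 * s))))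
    (h3 : Δ * N ≤ K * D) :
    D ^ (2 * s) ≤ c ^ (2 * s) * (B * K ^ (2 * s)) * N ^ (3 * s - 1) := by
  have hN0 : 0 < N := by linarith
  have hS2 : S ^ (2 * s) * N ^ (2 * s) ≤ B * K ^ (2 * s) * N ^ (3 * s - 1) * D ^ (2 * s) := by
    have h4 : Δ ^ (2 * s) * N ^ (2 * s) ≤ K ^ (2 * s) * D ^ (2 * s) := by
      rw [← mul_pow, ← mul_pow]
      exact pow_le_pow_left₀ (by positivity) h3 _
    have h5 : N ^ (3 * s - 1) = N ^ (3 * s - 2) * N := by
      rw [← pow_succ]; congr 1; omega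
    calc S ^ (2 * s) * N ^ (2 * s) ≤ N ^ (3 * s - 2) * (B * (N * Δ ^ (2 * s))) * N ^ (2 * s) :=
          mul_le_mul_of_nonneg_right h2 (by positivity)
      _ = B * (N ^ (3 * s - 2) * N) * (Δ ^ (2 * s) * N ^ (2 * s)) := by ring
      _ ≤ B * (N ^ (3 * s - 2) * N) * (K ^ (2 * s) * D ^ (2 * s)) :=
          mul_le_mul_of_nonneg_left h4 (by positivity)
      _ = B * K ^ (2 * s) * N ^ (3 * s - 1) * D ^ (2 * s) := by rw [h5]; ring
  have h6 : (D ^ 2) ^ (2 * s) ≤ (c * N * S) ^ (2 * s) := pow_le_pow_left₀ (by positivity) h1 _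
  have h7 : D ^ (2 * s) * D ^ (2 * s) ≤
      c ^ (2 * s) * (B * K ^ (2 * s)) * N ^ (3 * s - 1) * D ^ (2 * s) := by
    calc D ^ (2 * s) * D ^ (2 * s) = (D ^ 2) ^ (2 * s) := by ring
      _ ≤ (c * N * S) ^ (2 * s) := h6
      _ = c ^ (2 * s) * (S ^ (2 * s) * N ^ (2 * s)) := by rw [mul_pow, mul_pow]; ring
      _ ≤ c ^ (2 * s) * (B * K ^ (2 * s) * N ^ (3 * s - 1) * D ^ (2 * s)) :=
          mul_le_mul_of_nonneg_left hS2 (by positivity)
      _ = _ := by ring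
  exact le_of_mul_le_mul_right h7 (by positivity)

theorem FB (hLT : LT_stmt) (hMO : MO_stmt) (hCORE : CORE_stmt) : FB_stmt := by
  intro s t K hs ht hK
  obtain ⟨B, hB⟩ := hCORE s t hs ht
  have hM0 : (0 : ℝ) ≤ (2 * ((s : ℝ) + t) * (C0 s t : ℝ)) ^ (2 * s) * ((B : ℝ) * K ^ (2 * s)) := by
    positivity
  obtain ⟨M, hM⟩ : ∃ M : ℝ, M = (2 * ((s : ℝ) + t) * (C0 s t : ℝ)) ^ (2 * s) *
    ((B : ℝ) * K ^ (2 * s)) := ⟨_, rfl⟩
  rw [← hM] at hM0
  refine ⟨2 * ((s : ℝ) + t) + (M + 1), by positivity, ?_⟩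
  intro V X _ A p q hPG hcard hreg hE
  have hs0 : (0 : ℝ) < s := by
    have : (3 : ℝ) ≤ s := by exact_mod_cast hs
    linarith
  have hN1 : (1 : ℝ) ≤ Fintype.card V := by exact_mod_cast hcard
  obtain ⟨N, hN⟩ : ∃ N : ℝ, N = (Fintype.card V : ℝ) := ⟨_, rfl⟩
  obtain ⟨D, hD⟩ : ∃ D : ℕ, D = ∑ v, deg A v := ⟨_, rfl⟩
  obtain ⟨S, hS⟩ : ∃ S : ℕ, S = ∑ v, (Ls A (C0 s t) v).card := ⟨_, rfl⟩
  have hDr : ∑ v, (deg A v : ℝ) = (D : ℝ) := by rw [hD]; push_cast; rfl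
  rw [hDr] at hreg ⊢
  rw [← hN] at hreg hN1 ⊢
  have hN0 : (0 : ℝ) < N := by linarith
  have he : (1 : ℝ) + ((s : ℝ) - 1) / (2 * s) = ((3 * s - 1 : ℕ) : ℝ) / (2 * s) := by
    rw [Nat.cast_sub (by omega)]
    push_cast
    field_simp
    ring
  have he1 : (1 : ℝ) ≤ 1 + ((s : ℝ) - 1) / (2 * s) := by
    have h3 : (3 : ℝ) ≤ s := by exact_mod_cast hs
    have : (0 : ℝ) ≤ ((s : ℝ) - 1) / (2 * s) := div_nonneg (by linarith) (by linarith)
    linarith
  have hNe : N ≤ N ^ ((1 : ℝ) + ((s : ℝ) - 1) / (2 * s)) := by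
    calc N = N ^ (1 : ℝ) := (Real.rpow_one N).symm
      _ ≤ _ := Real.rpow_le_rpow_of_exponent_le hN1 he1
  have hNe0 : (0 : ℝ) < N ^ ((1 : ℝ) + ((s : ℝ) - 1) / (2 * s)) := Real.rpow_pos_of_pos hN0 _
  rcases Nat.eq_zero_or_pos D with hD0 | hDpos
  · rw [hD0]
    push_cast
    positivity
  have hDpos' : (0 : ℝ) < D := by exact_mod_cast hDpos
  -- maximal degree
  obtain ⟨v0, -, hv0⟩ : ∃ v ∈ (Finset.univ : Finset V), ∀ w ∈ (Finset.univ : Finset V),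
      deg A w ≤ deg A v := by
    have hne : (Finset.univ : Finset V).Nonempty := by
      rw [← Finset.card_pos, Finset.card_univ]; exact hcard
    exact Finset.exists_max_image _ _ hne
  have hΔ : ∀ v, deg A v ≤ deg A v0 := fun v => hv0 v (Finset.mem_univ v)
  have hΔ1 : 1 ≤ deg A v0 := by
    by_contra hlt
    have h0 : deg A v0 = 0 := by omega
    have : D = 0 := by
      rw [hD]
      apply Finset.sum_eq_zero
      intro v _
      have := hΔ v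
      omega
    omega
  have hlt := hLT s t V X A p q (by omega) (by omega) hPG hE
  rw [← hD, ← hS] at hlt
  have hlt' : (D : ℝ) ^ 2 ≤ N * (((s : ℝ) + t) * ((D : ℝ) + (C0 s t : ℝ) * S)) := by
    rw [hN]
    exact_mod_cast hlt
  have hst : (0 : ℝ) < (s : ℝ) + t := by positivity
  by_cases hCS : (C0 s t : ℝ) * S ≤ D
  · have h1 : (D : ℝ) * D ≤ (2 * ((s : ℝ) + t) * N) * D := by
      have h2 : N * (((s : ℝ) + t) * ((D : ℝ) + (C0 s t : ℝ) * S)) ≤
          N * (((s : ℝ) + t) * ((D : ℝ) + D)) := by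
        apply mul_le_mul_of_nonneg_left _ hN0.le
        apply mul_le_mul_of_nonneg_left _ hst.le
        linarith
      nlinarith
    have h3 : (D : ℝ) ≤ 2 * ((s : ℝ) + t) * N := le_of_mul_le_mul_right h1 hDpos'
    have h4 : 2 * ((s : ℝ) + t) * N ≤ 2 * ((s : ℝ) + t) *
        N ^ ((1 : ℝ) + ((s : ℝ) - 1) / (2 * s)) := mul_le_mul_of_nonneg_left hNe (by positivity)
    have h5 : (0 : ℝ) ≤ (M + 1) * N ^ ((1 : ℝ) + ((s : ℝ) - 1) / (2 * s)) := by positivity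
    rw [add_mul]
    linarith
  · push Not at hCS
    have h1 : (D : ℝ) ^ 2 ≤ (2 * ((s : ℝ) + t) * (C0 s t : ℝ)) * N * S := by
      have h2 : N * (((s : ℝ) + t) * ((D : ℝ) + (C0 s t : ℝ) * S)) ≤
          N * (((s : ℝ) + t) * ((C0 s t : ℝ) * S + (C0 s t : ℝ) * S)) := by
        apply mul_le_mul_of_nonneg_left _ hN0.le
        apply mul_le_mul_of_nonneg_left _ hst.le
        linarith
      nlinarith
    have hmo := hMO V (fun v => Ls A (C0 s t) v) s (by omega)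
    have hco := hB V X A p q (deg A v0) hPG hΔ hΔ1 hE
    unfold XX at hco
    have h2 : S ^ (2 * s) ≤ (Fintype.card V) ^ (3 * s - 2) *
        (B * (Fintype.card V * (deg A v0) ^ (2 * s))) := by
      rw [hS]
      exact le_trans hmo (Nat.mul_le_mul_left _ hco)
    have h2' : (S : ℝ) ^ (2 * s) ≤ N ^ (3 * s - 2) * ((B : ℝ) * (N * (deg A v0 : ℝ) ^ (2 * s))) := by
      rw [hN]
      exact_mod_cast h2
    have h3 : (deg A v0 : ℝ) * N ≤ K * D := hreg v0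
    have h4 := FB_num s hs N D S (deg A v0 : ℝ) K B (2 * ((s : ℝ) + t) * (C0 s t : ℝ)) hN1 hDpos'
      (by positivity) (by positivity) (by positivity) (by positivity) hK h1 h2' h3
    rw [← hM] at h4
    have h5 : (D : ℝ) ^ (2 * s) ≤
        ((M + 1) * N ^ ((1 : ℝ) + ((s : ℝ) - 1) / (2 * s))) ^ (2 * s) := by
      rw [mul_pow, ← Real.rpow_natCast (N ^ ((1 : ℝ) + ((s : ℝ) - 1) / (2 * s))) (2 * s),
        ← Real.rpow_mul hN0.le, he]
      have h6 : ((3 * s - 1 : ℕ) : ℝ) / (2 * s) * ((2 * s : ℕ) : ℝ) = ((3 * s - 1 : ℕ) : ℝ) := by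
        push_cast
        field_simp
      rw [h6, Real.rpow_natCast]
      refine le_trans h4 (mul_le_mul_of_nonneg_right ?_ (by positivity))
      have h7 : M + 1 ≤ (M + 1) ^ (2 * s) := by
        have h8 : (1 : ℝ) ≤ M + 1 := by linarith
        exact le_self_pow₀ h8 (by omega)
      linarith
    have h6 : (D : ℝ) ≤ (M + 1) * N ^ ((1 : ℝ) + ((s : ℝ) - 1) / (2 * s)) :=
      le_of_pow_le_pow_left₀ (by omega) (by positivity) h5
    have h7 : (0 : ℝ) ≤ 2 * ((s : ℝ) + t) * N ^ ((1 : ℝ) + ((s : ℝ) - 1) / (2 * s)) := by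
      positivity
    rw [add_mul]
    linarith

end

end Pool.Agent.KS
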