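import Pool.Agent.helper90.KS.Spec

/-!
# MP_26dbae_co: TRK, the pair graph of a colouring
-/

set_option autoImplicit false

open scoped BigOperators

namespace Pool.Agent.KS

open Pool.Agent.helper23.TH

noncomputable section

open Classical

theorem TRK_symm {V K : Type} (χ : V → V → K) (ω : V → Bool) (h : PC χ) (u w : V × V)
    (hu : Gb χ ω u w) : Gb χ ω w u := by
  obtain ⟨⟨h1, h2, h3, h4, h5, h6, h7⟩, h8, h9, h10, h11⟩ := hu
  refine ⟨⟨h2, h1, h3.symm, h5.symm, h4.symm, h6.symm, ?_⟩, h9, h8, h11, h10⟩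
  rw [h.symm w.1 u.1, h.symm w.2 u.2]
  exact h7

theorem TRK_PG {V K : Type} [Fintype V] (χ : V → V → K) (ω : V → Bool) (U : Finset (V × V))
    (h : PC χ) :
    PG (fun u w : {x // x ∈ U} => Gb χ ω u.1 w.1) (fun u => u.1.1) (fun u => u.1.2) := by
  constructor
  · intro u w hu
    exact TRK_symm χ ω h _ _ hu
  · intro u w hu
    exact hu.1.2.2.1
  · intro u w hu
    exact hu.1.2.2.2.2.2.1
  · intro w u u' hu hu' hp
    have hp : u.1.1 = u'.1.1 := hp
    obtain ⟨⟨h1, h2, h3, h4, h5, h6, h7⟩, -⟩ := hu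
    obtain ⟨⟨k1, k2, k3, k4, k5, k6, k7⟩, -⟩ := hu'
    apply Subtype.ext
    apply Prod.ext hp
    by_contra hne
    apply h.proper w.1.2 u.1.2 u'.1.2 h6 k6 hne
    rw [← h7, ← k7, hp]
  · intro w u u' hu hu' hp
    have hp : u.1.2 = u'.1.2 := hp
    obtain ⟨⟨h1, h2, h3, h4, h5, h6, h7⟩, -⟩ := hu
    obtain ⟨⟨k1, k2, k3, k4, k5, k6, k7⟩, -⟩ := hu'
    apply Subtype.ext
    refine Prod.ext ?_ hp
    by_contra hne
    apply h.proper w.1.1 u.1.1 u'.1.1 h3 k3 hne
    rw [h7, k7, hp]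
  · intro u u' hp hq
    exact Subtype.ext (Prod.ext hp hq)

theorem TRK_two {V K : Type} [Fintype V] (χ : V → V → K) (ω : V → Bool) (U : Finset (V × V))
    (h : PC χ) (s t : ℕ) (hs : 1 ≤ s) (ht : 1 ≤ t)
    (hE : Emb (fun u w : {x // x ∈ U} => Gb χ ω u.1 w.1) (fun u => u.1.1) (fun u => u.1.2) s t) :
    Two ((spider s).pw t) χ := by
  obtain ⟨u, v, m, hadj, huu, hvv, huv, hum, hvm, hmm⟩ := hE
  obtain ⟨P, hP1, hP2, hP3⟩ : ∃ P : Fin s ⊕ (Fin t × Fin (s + 1)) → {x // x ∈ U},
      (∀ i, P (Sum.inl i) = u i) ∧ (∀ j, P (Sum.inr (j, 0)) = v j) ∧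
      ∀ j i, P (Sum.inr (j, Fin.succ i)) = m i j :=
    ⟨fun a => Sum.elim u (fun b => Fin.cases (v b.1) (fun i => m i b.1) b.2) a,
      fun _ => rfl, fun _ => rfl, fun _ _ => rfl⟩
  have hcs : ∀ x y : {x // x ∈ U}, ¬ Co (fun u : {x // x ∈ U} => u.1.1) (fun u => u.1.2) x y →
      ¬ Co (fun u : {x // x ∈ U} => u.1.1) (fun u => u.1.2) y x := by
    intro x y hxy hyx
    apply hxy
    rcases hyx with h1 | h1
    · exact Or.inl h1.symm
    · exact Or.inr h1.symm
  have hco : ∀ a b, a ≠ b →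
      ¬ Co (fun u : {x // x ∈ U} => u.1.1) (fun u => u.1.2) (P a) (P b) := by
    intro a b hab
    rcases a with i | ⟨j, k⟩ <;> rcases b with i' | ⟨j', k'⟩
    · rw [hP1, hP1]
      exact huu i i' (fun h' => hab (by rw [h']))
    · refine Fin.cases ?_ (fun i' => ?_) k'
      · rw [hP1, hP2]; exact huv i j'
      · rw [hP1, hP3]; exact hum i i' j'
    · refine Fin.cases ?_ (fun i => ?_) k
      · rw [hP1, hP2]; exact hcs _ _ (huv i' j)
      · rw [hP1, hP3]; exact hcs _ _ (hum i' i j)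
    · induction k using Fin.cases with
      | zero =>
        induction k' using Fin.cases with
        | zero =>
          rw [hP2, hP2]
          exact hvv j j' (fun h' => hab (by rw [h']))
        | succ i' =>
          rw [hP2, hP3]; exact hvm i' j j'
      | succ i =>
        induction k' using Fin.cases with
        | zero =>
          rw [hP2, hP3]; exact hcs _ _ (hvm i j' j)
        | succ i' =>
          rw [hP3, hP3]
          apply hmm i i' j j'
          intro h'
          apply hab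
          rw [Prod.mk.injEq] at h'
          rw [h'.1, h'.2]
  have hω : ∀ a, ω (P a).1.1 = true ∧ ω (P a).1.2 = false := by
    intro a
    rcases a with i | ⟨j, k⟩
    · rw [hP1]
      have := (hadj i ⟨0, by omega⟩).1
      exact ⟨this.2.1, this.2.2.2.1⟩
    · induction k using Fin.cases with
      | zero =>
        rw [hP2]
        have := (hadj ⟨0, by omega⟩ j).2
        exact ⟨this.2.2.1, this.2.2.2.2⟩
      | succ i =>
        rw [hP3]
        have := (hadj i j).2
        exact ⟨this.2.1, this.2.2.2.1⟩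
  have hed : ∀ k : Fin (s + s), ∃ i : Fin s,
      @Eq ((Fin s ⊕ Fin (s + 1)) × (Fin s ⊕ Fin (s + 1))) ((spider s).ed k)
        (Sum.inl i, Sum.inr i.succ) ∨
      @Eq ((Fin s ⊕ Fin (s + 1)) × (Fin s ⊕ Fin (s + 1))) ((spider s).ed k)
        (Sum.inr 0, Sum.inr i.succ) := by
    intro k
    induction k using Fin.addCases with
    | left i =>
      refine ⟨i, Or.inl ?_⟩
      change @Fin.addCases s s (fun _ => (Fin s ⊕ Fin (s + 1)) × (Fin s ⊕ Fin (s + 1)))
        (fun i => (Sum.inl i, Sum.inr i.succ)) (fun i => (Sum.inr 0, Sum.inr i.succ))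
        (Fin.castAdd s i) = _
      rw [Fin.addCases_left]
    | right i =>
      refine ⟨i, Or.inr ?_⟩
      change @Fin.addCases s s (fun _ => (Fin s ⊕ Fin (s + 1)) × (Fin s ⊕ Fin (s + 1)))
        (fun i => (Sum.inl i, Sum.inr i.succ)) (fun i => (Sum.inr 0, Sum.inr i.succ))
        (Fin.natAdd s i) = _
      rw [Fin.addCases_right]
  have hk : ∀ (L : Fin t → Fin s ⊕ Fin (s + 1) → Fin s ⊕ (Fin t × Fin (s + 1)))
      (_ : ∀ j i, L j (Sum.inl i) = Sum.inl i) (_ : ∀ j y, L j (Sum.inr y) = Sum.inr (j, y))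
      (j : Fin t) (x : (Fin s ⊕ Fin (s + 1)) × (Fin s ⊕ Fin (s + 1))) (i : Fin s),
      (x = (Sum.inl i, Sum.inr i.succ) ∨ x = (Sum.inr 0, Sum.inr i.succ)) →
      Gb χ ω (P (L j x.1)).1 (P (L j x.2)).1 := by
    intro L hL1 hL2 j x i hx
    rcases hx with hx | hx
    · rw [hx]
      simp only [hL1, hL2, hP1, hP3]
      exact (hadj i j).1
    · rw [hx]
      simp only [hL2, hP2, hP3]
      exact TRK_symm χ ω h _ _ (hadj i j).2
  have hedge : ∀ (j : Fin t) (k : Fin (s + s)),
      Gb χ ω (P ((spider s).lift j ((spider s).ed k).1)).1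
        (P ((spider s).lift j ((spider s).ed k).2)).1 := by
    intro j k
    obtain ⟨i, hi⟩ := hed k
    exact hk (fun j => (spider s).lift j) (fun _ _ => rfl) (fun _ _ => rfl) j
      ((spider s).ed k) i hi
  refine ⟨fun a => (P a).1.1, fun a => (P a).1.2, ?_, ?_, ?_, ?_⟩
  · intro a b hab
    by_contra hne
    exact hco a b hne (Or.inl hab)
  · intro a b hab
    by_contra hne
    exact hco a b hne (Or.inr hab)
  · intro a b hab
    have h1 := (hω a).1
    have h2 := (hω b).2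
    simp only at hab
    rw [hab, h2] at h1
    exact absurd h1 (by decide)
  · intro a b hab
    obtain ⟨j, k, ⟨ha, hb⟩ | ⟨hb, ha⟩⟩ := hab
    · rw [ha, hb]
      exact (hedge j k).1.2.2.2.2.2.2
    · rw [ha, hb]
      have := (TRK_symm χ ω h _ _ (hedge j k)).1.2.2.2.2.2.2
      exact this

theorem TRK : TRK_stmt := by
  intro V K _ χ ω U h
  exact ⟨TRK_PG χ ω U h, fun s t hs ht hE => TRK_two χ ω U h s t hs ht hE⟩

end

end Pool.Agent.KS
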